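import Pool.Agent.helper4.BI.Defs

/-!
# Blown-up clause graphs: combinatorial part
-/

set_option autoImplicit false

namespace Pool.Agent.helper4.BI

open Finset

section general
variable {V : Type} [Fintype V] [DecidableEq V] {G : SimpleGraph V}

theorem dist_le_ecc (v u : V) : G.dist v u ≤ ecc G v :=
  Finset.le_sup (f := fun u => G.dist v u) (Finset.mem_univ u)

theorem ecc_le_diam (v : V) : ecc G v ≤ diam G :=
  Finset.le_sup (f := fun v => ecc G v) (Finset.mem_univ v)

theorem bdd_cost {P : (V → ℕ) → Prop} (hP : ∀ f, P f → IsBroadcast G f) :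
    BddAbove {c | ∃ f, P f ∧ cost f = c} := by
  refine ⟨∑ v, ecc G v, ?_⟩
  rintro c ⟨f, hf, rfl⟩
  exact Finset.sum_le_sum fun v _ => (hP f hf v).2

theorem le_sSup_iff {P : (V → ℕ) → Prop} (hP : ∀ f, P f → IsBroadcast G f)
    (hne : ∃ f, P f) (k : ℕ) :
    k ≤ sSup {c | ∃ f, P f ∧ cost f = c} ↔ ∃ f, P f ∧ k ≤ cost f := by
  have hne' : {c | ∃ f, P f ∧ cost f = c}.Nonempty := by
    obtain ⟨f, hf⟩ := hne
    exact ⟨_, f, hf, rfl⟩
  constructor
  · intro h
    obtain ⟨f, hf, hc⟩ := Nat.sSup_mem hne' (bdd_cost hP)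
    exact ⟨f, hf, by rw [hc]; exact h⟩
  · rintro ⟨f, hf, hc⟩
    exact hc.trans (le_csSup (bdd_cost hP) ⟨f, hf, rfl⟩)

/-- a minimal dominating broadcast is irredundant -/
theorem MinimalDominating.irredundant {f : V → ℕ} (h : MinimalDominating G f) :
    Irredundant G f := by
  obtain ⟨hb, hd, hm⟩ := h
  refine ⟨hb, fun v hv => ?_⟩
  by_contra hne
  rw [Set.not_nonempty_iff_eq_empty] at hne
  refine hm (lower f v) ?_ ?_ ?_ ?_
  · intro x
    unfold lower
    by_cases hx : x = v
    · subst hx
      rw [Function.update_self]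
      have := hb x
      omega
    · rw [Function.update_of_ne hx]
      exact hb x
  · intro x
    unfold lower
    by_cases hx : x = v
    · subst hx
      rw [Function.update_self]
      omega
    · rw [Function.update_of_ne hx]
  · intro h
    have := congrFun h v
    unfold lower at this
    rw [Function.update_self] at this
    omega
  · intro u
    by_contra hcon
    push Not at hcon
    obtain ⟨x, hx⟩ := hd u
    by_cases hxv : x = v
    · subst hxv
      have : u ∈ PB G f x := ⟨hx.2, hcon⟩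
      rw [hne] at this
      exact this
    · apply hcon x
      unfold Hears lower
      rw [Function.update_of_ne hxv]
      exact hx

end general

/-- A blown-up clause graph. -/
structure Blow (X C W : Type) [Fintype X] [Fintype C] [DecidableEq X] [DecidableEq C] where
  /-- the clause of a vertex; `none`: the vertex is adjacent to everything -/
  cell : X → Option C
  /-- index of the literal -/
  idx : X → ℕ
  /-- literals of the clauses -/
  lits : C → List (Bool × W)
  hlen : ∀ c, (lits c).length ≤ 4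
  hidx : ∀ x c, cell x = some c → idx x < (lits c).length
  hcard : ∀ c s, s < (lits c).length →
    (univ.filter fun x => cell x = some c ∧ idx x = s).card = 5
  hu : ∃ x y, x ≠ y ∧ cell x = none ∧ cell y = none

namespace Blow

variable {X C W : Type} [Fintype X] [Fintype C] [DecidableEq X] [DecidableEq C] (b : Blow X C W)

/-- two literals contradict each other -/
def Conf (l l' : Option (Bool × W)) : Prop :=
  ∃ s v, l = some (s, v) ∧ l' = some (!s, v)

theorem Conf.symm {l l' : Option (Bool × W)} (h : Conf l l') : Conf l' l := by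
  obtain ⟨s, v, h1, h2⟩ := h
  exact ⟨!s, v, h2, by rw [h1, Bool.not_not]⟩

/-- adjacency without the condition `x ≠ y` -/
def Rel (x y : X) : Prop :=
  b.cell x = none ∨ b.cell y = none ∨ (b.cell x = b.cell y ∧ b.idx x ≠ b.idx y) ∨
    ∃ c c', b.cell x = some c ∧ b.cell y = some c' ∧
      Conf ((b.lits c)[b.idx x]?) ((b.lits c')[b.idx y]?)

theorem Rel.symm {x y : X} (h : b.Rel x y) : b.Rel y x := by
  rcases h with h | h | ⟨h1, h2⟩ | ⟨c, c', h1, h2, h3⟩
  · exact Or.inr (Or.inl h)
  · exact Or.inl h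
  · exact Or.inr (Or.inr (Or.inl ⟨h1.symm, h2.symm⟩))
  · exact Or.inr (Or.inr (Or.inr ⟨c', c, h2, h1, h3.symm⟩))

/-- the graph -/
def graph : SimpleGraph X where
  Adj x y := x ≠ y ∧ b.Rel x y
  symm := ⟨fun _ _ h => ⟨h.1.symm, Rel.symm b h.2⟩⟩
  loopless := ⟨fun _ h => h.1 rfl⟩

/-- satisfiability -/
def Sat : Prop := ∃ α : W → Bool, ∀ c, ∃ l ∈ b.lits c, α l.2 = l.1

theorem adj_iff {x y : X} : b.graph.Adj x y ↔ x ≠ y ∧ b.Rel x y := Iff.rfl

theorem univ_adj {x y : X} (hx : b.cell x = none) (hxy : x ≠ y) : b.graph.Adj x y :=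
  ⟨hxy, Or.inl hx⟩

theorem connected : b.graph.Connected := by
  obtain ⟨u, _, _, hu, _⟩ := b.hu
  have hne : Nonempty X := ⟨u⟩
  rw [SimpleGraph.connected_iff]
  refine ⟨fun x y => ?_, hne⟩
  have h1 : ∀ z, b.graph.Reachable u z := by
    intro z
    by_cases hz : u = z
    · rw [hz]
    · exact (b.univ_adj hu hz).reachable
  exact (h1 x).symm.trans (h1 y)

theorem dist_le_two (x y : X) : b.graph.dist x y ≤ 2 := by
  obtain ⟨u, _, _, hu, _⟩ := b.hu
  by_cases hx : u = x
  · subst hx
    by_cases hy : u = y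
    · subst hy; simp
    · rw [SimpleGraph.dist_eq_one_iff_adj.2 (b.univ_adj hu hy)]; omega
  · by_cases hy : u = y
    · subst hy
      rw [SimpleGraph.dist_comm, SimpleGraph.dist_eq_one_iff_adj.2 (b.univ_adj hu hx)]; omega
    · have h1 : b.graph.Adj x u := (b.univ_adj hu hx).symm
      have h2 : b.graph.Adj u y := b.univ_adj hu hy
      exact SimpleGraph.dist_le (SimpleGraph.Walk.cons h1 (SimpleGraph.Walk.cons h2 .nil))

theorem ecc_pos (x : X) : 1 ≤ ecc b.graph x := by
  obtain ⟨u, u', huu, hu, hu'⟩ := b.hu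
  by_cases hx : u = x
  · subst hx
    have h := dist_le_ecc (G := b.graph) u u'
    rw [SimpleGraph.dist_eq_one_iff_adj.2 (b.univ_adj hu huu)] at h
    exact h
  · have h := dist_le_ecc (G := b.graph) x u
    rw [SimpleGraph.dist_comm, SimpleGraph.dist_eq_one_iff_adj.2 (b.univ_adj hu hx)] at h
    exact h

theorem ecc_le_two (x : X) : ecc b.graph x ≤ 2 :=
  Finset.sup_le fun y _ => b.dist_le_two x y

theorem dist_le_one_iff {x y : X} : b.graph.dist x y ≤ 1 ↔ x = y ∨ b.graph.Adj x y := by
  constructor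
  · intro h
    rcases Nat.lt_or_eq_of_le h with h1 | h1
    · left
      have h2 : b.graph.dist x y = 0 := by omega
      exact (b.connected.dist_eq_zero_iff).1 h2
    · right
      exact SimpleGraph.dist_eq_one_iff_adj.1 h1
  · rintro (h | h)
    · rw [h]; simp
    · rw [SimpleGraph.dist_eq_one_iff_adj.2 h]

/-- vertices of the clause `c` with literal index `s` -/
def cls (c : C) (s : ℕ) : Finset X := univ.filter fun x => b.cell x = some c ∧ b.idx x = s

theorem mem_cls {c : C} {s : ℕ} {x : X} : x ∈ b.cls c s ↔ b.cell x = some c ∧ b.idx x = s := by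
  simp [cls]

theorem not_rel_self_cls {c : C} {s : ℕ} {x y : X} (hx : x ∈ b.cls c s) (hy : y ∈ b.cls c s) :
    ¬ b.Rel x y := by
  rw [mem_cls] at hx hy
  rintro (h | h | ⟨h1, h2⟩ | ⟨c1, c2, h1, h2, s1, v, h3, h4⟩)
  · rw [hx.1] at h; exact absurd h (by simp)
  · rw [hy.1] at h; exact absurd h (by simp)
  · exact h2 (by rw [hx.2, hy.2])
  · rw [hx.1] at h1; rw [hy.1] at h2
    obtain rfl := Option.some.inj h1
    obtain rfl := Option.some.inj h2
    rw [hx.2] at h3; rw [hy.2, h3] at h4
    simp at h4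

/-- false twins -/
theorem twin {c : C} {s : ℕ} {x y z : X} (hx : x ∈ b.cls c s) (hy : y ∈ b.cls c s)
    (h : b.Rel z x) : b.Rel z y := by
  rw [mem_cls] at hx hy
  rcases h with h | h | ⟨h1, h2⟩ | ⟨c1, c2, h1, h2, h3⟩
  · exact Or.inl h
  · rw [hx.1] at h; exact absurd h (by simp)
  · refine Or.inr (Or.inr (Or.inl ⟨by rw [h1, hx.1, hy.1], ?_⟩))
    rw [hx.2] at h2; rw [hy.2]; exact h2
  · refine Or.inr (Or.inr (Or.inr ⟨c1, c2, h1, ?_, ?_⟩))
    · rw [hy.1, ← hx.1, h2]
    · rw [hx.2] at h3; rw [hy.2]; exact h3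

/-- the easy direction -/
theorem exists_minimal (hC : Nonempty C) (h : b.Sat) :
    ∃ f, MinimalDominating b.graph f ∧ cost f = 5 * Fintype.card C := by
  obtain ⟨α, hα⟩ := h
  have hch : ∀ c, ∃ s : ℕ, ∃ l, (b.lits c)[s]? = some l ∧ α l.2 = l.1 := by
    intro c
    obtain ⟨l, hl, hl'⟩ := hα c
    obtain ⟨s, hs⟩ := List.getElem?_of_mem hl
    exact ⟨s, l, hs, hl'⟩
  choose s l hsl hαl using hch
  have hslt : ∀ c, s c < (b.lits c).length := by
    intro c
    have := hsl c
    by_contra hcon
    push Not at hcon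
    rw [List.getElem?_eq_none hcon] at this
    exact absurd this (by simp)
  let I : Finset X := univ.biUnion fun c => b.cls c (s c)
  have hI : ∀ x, x ∈ I ↔ ∃ c, b.cell x = some c ∧ b.idx x = s c := by
    intro x
    simp [I, mem_cls]
  have hcard : I.card = 5 * Fintype.card C := by
    rw [Finset.card_biUnion]
    · have h5 : ∀ c ∈ (univ : Finset C), (b.cls c (s c)).card = 5 := fun c _ =>
        b.hcard c (s c) (hslt c)
      rw [Finset.sum_congr rfl h5]
      simp [mul_comm]
    · intro c _ c' _ hcc'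
      rw [Function.onFun, Finset.disjoint_left]
      intro x hx hx'
      rw [mem_cls] at hx hx'
      apply hcc'
      have := hx.1.symm.trans hx'.1
      exact Option.some.inj this
  have hind : ∀ x ∈ I, ∀ y ∈ I, ¬ b.Rel x y := by
    intro x hx y hy
    obtain ⟨c, hc1, hc2⟩ := (hI x).1 hx
    obtain ⟨c', hc1', hc2'⟩ := (hI y).1 hy
    rintro (h | h | ⟨h1, h2⟩ | ⟨c1, c2, h1, h2, s1, v, h3, h4⟩)
    · rw [hc1] at h; exact absurd h (by simp)
    · rw [hc1'] at h; exact absurd h (by simp)
    · rw [hc1, hc1'] at h1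
      obtain rfl := Option.some.inj h1
      exact h2 (by rw [hc2, hc2'])
    · rw [hc1] at h1; rw [hc1'] at h2
      obtain rfl := Option.some.inj h1
      obtain rfl := Option.some.inj h2
      rw [hc2, hsl] at h3
      rw [hc2', hsl] at h4
      have e1 := hαl c
      have e2 := hαl c'
      rw [Option.some.inj h3] at e1
      rw [Option.some.inj h4] at e2
      simp only at e1 e2
      rw [e1] at e2
      simp at e2
  let f : X → ℕ := fun x => if x ∈ I then 1 else 0
  have hf1 : ∀ x, x ∈ I → f x = 1 := fun x hx => by simp [f, hx]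
  have hf0 : ∀ x, x ∉ I → f x = 0 := fun x hx => by simp [f, hx]
  refine ⟨f, ⟨?_, ?_, ?_⟩, ?_⟩
  · intro x
    have h1 := b.ecc_pos x
    have h2 := ecc_le_diam (G := b.graph) x
    by_cases hx : x ∈ I
    · rw [hf1 x hx]; omega
    · rw [hf0 x hx]; omega
  · intro y
    have key : ∃ x ∈ I, y = x ∨ b.graph.Adj y x := by
      rcases hcy : b.cell y with _ | c
      · obtain ⟨c⟩ := hC
        have hne : (b.cls c (s c)).Nonempty := by
          rw [← Finset.card_pos, cls, b.hcard c (s c) (hslt c)]; norm_num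
        obtain ⟨x, hx⟩ := hne
        have hxI : x ∈ I := (hI x).2 ⟨c, b.mem_cls.1 hx⟩
        refine ⟨x, hxI, Or.inr (b.univ_adj hcy ?_)⟩
        rintro rfl
        rw [(b.mem_cls.1 hx).1] at hcy
        exact absurd hcy (by simp)
      · by_cases hi : b.idx y = s c
        · exact ⟨y, (hI y).2 ⟨c, hcy, hi⟩, Or.inl rfl⟩
        · have hne : (b.cls c (s c)).Nonempty := by
            rw [← Finset.card_pos, cls, b.hcard c (s c) (hslt c)]; norm_num
          obtain ⟨x, hx⟩ := hne
          have hx' := b.mem_cls.1 hx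
          have hxI : x ∈ I := (hI x).2 ⟨c, hx'⟩
          refine ⟨x, hxI, Or.inr ⟨?_, Or.inr (Or.inr (Or.inl ⟨by rw [hcy, hx'.1], ?_⟩))⟩⟩
          · rintro rfl
            exact hi hx'.2
          · rw [hx'.2]; exact hi
    obtain ⟨x, hx, h⟩ := key
    refine ⟨x, ?_, ?_⟩
    · rw [hf1 x hx]; norm_num
    · rw [hf1 x hx]
      exact b.dist_le_one_iff.2 h
  · intro g _ hgf hne hdom
    have : ∃ x, g x ≠ f x := by
      by_contra hcon
      push Not at hcon
      exact hne (funext hcon)
    obtain ⟨x, hx⟩ := this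
    have hxI : x ∈ I := by
      by_contra hxI
      have h1 := hgf x
      rw [hf0 x hxI] at h1 hx
      omega
    have hgx : g x = 0 := by
      have h1 := hgf x
      rw [hf1 x hxI] at h1 hx
      omega
    obtain ⟨v, hv1, hv2⟩ := hdom x
    have hvI : v ∈ I := by
      by_contra hvI
      have h1 := hgf v
      rw [hf0 v hvI] at h1
      omega
    have hv3 : b.graph.dist x v ≤ 1 := by
      have h1 := hgf v
      rw [hf1 v hvI] at h1
      omega
    rcases b.dist_le_one_iff.1 hv3 with h1 | h1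
    · subst h1; omega
    · exact hind x hxI v hvI h1.2
  · unfold cost
    rw [← hcard, Finset.card_eq_sum_ones, ← Finset.sum_filter]
    simp [Finset.filter_mem_eq_inter]

/-- the hard direction -/
theorem sat_of_irredundant (hC : Nonempty C) {f : X → ℕ} (hf : Irredundant b.graph f)
    (hc : 5 * Fintype.card C ≤ cost f) : b.Sat := by
  obtain ⟨hb, hirr⟩ := hf
  have hCpos : 0 < Fintype.card C := Fintype.card_pos_iff.2 hC
  have hfle : ∀ v, f v ≤ 2 := fun v => (hb v).2.trans (b.ecc_le_two v)
  -- a vertex heard by everybody is the only broadcasting vertex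
  have hall : ∀ v, 0 < f v → (∀ x, b.graph.dist x v ≤ f v) → False := by
    intro v hv hx
    have hother : ∀ w, w ≠ v → f w = 0 := by
      intro w hwv
      by_contra hw
      obtain ⟨x, hx1, hx2⟩ := hirr w (Nat.pos_of_ne_zero hw)
      apply hx2 v
      unfold Hears lower
      rw [Function.update_of_ne (Ne.symm hwv)]
      exact ⟨hv, hx x⟩
    have hcost : cost f = f v := by
      unfold cost
      rw [Finset.sum_eq_single v (fun w _ hwv => hother w hwv) (fun h => absurd (Finset.mem_univ v) h)]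
    have := hfle v
    omega
  have hle1 : ∀ v, f v ≤ 1 := by
    intro v
    by_contra hcon
    have h2 : f v = 2 := by have := hfle v; omega
    exact hall v (by omega) (fun x => by rw [h2]; exact b.dist_le_two x v)
  have hcell : ∀ v, 0 < f v → b.cell v ≠ none := by
    intro v hv hcv
    refine hall v hv (fun x => ?_)
    have h1 : f v = 1 := by have := hle1 v; omega
    rw [h1]
    apply b.dist_le_one_iff.2
    by_cases hxv : x = v
    · exact Or.inl hxv
    · exact Or.inr (b.univ_adj hcv (Ne.symm hxv)).symm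
  let S : Finset X := univ.filter fun x => 0 < f x
  have hS : ∀ x, x ∈ S ↔ 0 < f x := fun x => by simp [S]
  have hcostS : cost f = S.card := by
    unfold cost
    rw [Finset.card_eq_sum_ones, Finset.sum_filter]
    apply Finset.sum_congr rfl
    intro x _
    have := hle1 x
    split_ifs <;> omega
  -- isolated if a false twin is in `S`
  have hiso : ∀ c s x y, x ∈ S → y ∈ S → x ≠ y → x ∈ b.cls c s → y ∈ b.cls c s →
      ∀ z ∈ S, ¬ b.Rel z x := by
    intro c s x y hxS hyS hxy hx hy z hzS hzx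
    have hfx : f x = 1 := by have := hle1 x; have := (hS x).1 hxS; omega
    obtain ⟨p, hp1, hp2⟩ := hirr x ((hS x).1 hxS)
    rw [hfx] at hp1
    have hlow : ∀ v, v ∈ S → v ≠ x → ¬ (p = v ∨ b.graph.Adj p v) := by
      intro v hv hvx h
      apply hp2 v
      unfold Hears lower
      rw [Function.update_of_ne hvx]
      refine ⟨(hS v).1 hv, ?_⟩
      have : f v = 1 := by have := hle1 v; have := (hS v).1 hv; omega
      rw [this]
      exact b.dist_le_one_iff.2 h
    have hpx : p = x := by
      rcases b.dist_le_one_iff.1 hp1 with h | h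
      · exact h
      · exfalso
        refine hlow y hyS (Ne.symm hxy) ?_
        by_cases hpy : p = y
        · exact Or.inl hpy
        · exact Or.inr ⟨hpy, b.twin hx hy h.2⟩
    subst hpx
    have hzx' : z ≠ p := by
      rintro rfl
      exact b.not_rel_self_cls hx hx hzx
    exact hlow z hzS hzx' (Or.inr ⟨Ne.symm hzx', Rel.symm b hzx⟩)
  -- cells
  let Sc : C → Finset X := fun c => S.filter fun x => b.cell x = some c
  have hSc : ∀ c x, x ∈ Sc c ↔ x ∈ S ∧ b.cell x = some c := fun c x => by simp [Sc]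
  have hsum : S.card = ∑ c, (Sc c).card := by
    rw [← Finset.card_biUnion]
    · congr 1
      ext x
      simp only [Finset.mem_biUnion, Finset.mem_univ, true_and, hSc]
      constructor
      · intro hx
        obtain ⟨c, hc⟩ := Option.ne_none_iff_exists'.1 (hcell x ((hS x).1 hx))
        exact ⟨c, hx, hc⟩
      · rintro ⟨c, hx, _⟩
        exact hx
    · intro c _ c' _ hcc'
      rw [Function.onFun, Finset.disjoint_left]
      intro x hx hx'
      apply hcc'
      exact Option.some.inj (((hSc c x).1 hx).2.symm.trans ((hSc c' x).1 hx').2)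
  -- dichotomy in a cell
  have hdich : ∀ c, (Sc c).card ≤ 4 ∨ ∃ s, ∃ x ∈ Sc c, ∃ y ∈ Sc c, x ≠ y ∧ b.idx x = s ∧
      b.idx y = s := by
    intro c
    by_cases h : ∃ x ∈ Sc c, ∃ y ∈ Sc c, x ≠ y ∧ b.idx x = b.idx y
    · right
      obtain ⟨x, hx, y, hy, hxy, he⟩ := h
      exact ⟨b.idx y, x, hx, y, hy, hxy, he, rfl⟩
    · left
      push Not at h
      have hinj : Set.InjOn b.idx (Sc c : Set X) := by
        intro x hx y hy hxy
        by_contra hne
        exact h x hx y hy hne hxy
      have h1 : (Sc c).card ≤ (Finset.range 4).card := by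
        apply Finset.card_le_card_of_injOn b.idx ?_ hinj
        intro x hx
        have h2 := b.hidx x c ((hSc c x).1 hx).2
        have h3 := b.hlen c
        simp only [Finset.coe_range, Set.mem_Iio]
        omega
      simpa using h1
  have hsub : ∀ c s x y, x ∈ Sc c → y ∈ Sc c → x ≠ y → b.idx x = s → b.idx y = s →
      Sc c ⊆ b.cls c s := by
    intro c s x y hx hy hxy hix hiy z hz
    have hx' := (hSc c x).1 hx
    have hy' := (hSc c y).1 hy
    have hz' := (hSc c z).1 hz
    rw [mem_cls]
    refine ⟨hz'.2, ?_⟩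
    by_contra hne
    refine hiso c s x y hx'.1 hy'.1 hxy (b.mem_cls.2 ⟨hx'.2, hix⟩) (b.mem_cls.2 ⟨hy'.2, hiy⟩) z
      hz'.1 ?_
    exact Or.inr (Or.inr (Or.inl ⟨by rw [hz'.2, hx'.2], by rw [hix]; exact hne⟩))
  have hle5 : ∀ c, (Sc c).card ≤ 5 := by
    intro c
    rcases hdich c with h | ⟨s, x, hx, y, hy, hxy, hix, hiy⟩
    · omega
    · have h1 := Finset.card_le_card (hsub c s x y hx hy hxy hix hiy)
      have h2 := b.hidx x c ((hSc c x).1 hx).2
      rw [hix] at h2
      rw [cls, b.hcard c s h2] at h1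
      exact h1
  have heq5 : ∀ c, (Sc c).card = 5 := by
    by_contra hcon
    push Not at hcon
    obtain ⟨c0, hc0⟩ := hcon
    have h1 : ∑ c, (Sc c).card < ∑ _c : C, 5 := by
      apply Finset.sum_lt_sum (fun c _ => hle5 c)
      exact ⟨c0, Finset.mem_univ _, lt_of_le_of_ne (hle5 c0) hc0⟩
    rw [← hsum, ← hcostS] at h1
    simp only [Finset.sum_const, Finset.card_univ, smul_eq_mul] at h1
    omega
  have hex : ∀ c, ∃ s, ∃ x, x ∈ S ∧ x ∈ b.cls c s ∧ ∀ z ∈ S, ¬ b.Rel z x := by
    intro c
    rcases hdich c with h | ⟨s, x, hx, y, hy, hxy, hix, hiy⟩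
    · have := heq5 c; omega
    · have hx' := (hSc c x).1 hx
      have hy' := (hSc c y).1 hy
      have hxc : x ∈ b.cls c s := b.mem_cls.2 ⟨hx'.2, hix⟩
      have hyc : y ∈ b.cls c s := b.mem_cls.2 ⟨hy'.2, hiy⟩
      exact ⟨s, x, hx'.1, hxc, hiso c s x y hx'.1 hy'.1 hxy hxc hyc⟩
  choose s x hxS hxc hxr using hex
  have hslt : ∀ c, s c < (b.lits c).length := by
    intro c
    have h1 := b.mem_cls.1 (hxc c)
    rw [← h1.2]
    exact b.hidx _ c h1.1
  classical
  refine ⟨fun v => decide (∃ c, (b.lits c)[s c]? = some (true, v)), fun c => ?_⟩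
  refine ⟨(b.lits c)[s c]'(hslt c), List.getElem_mem _, ?_⟩
  have hget : (b.lits c)[s c]? = some ((b.lits c)[s c]'(hslt c)) := List.getElem?_eq_getElem _
  rcases hl : (b.lits c)[s c]'(hslt c) with ⟨sg, v⟩
  rw [hl] at hget
  simp only
  cases sg with
  | true =>
    exact decide_eq_true ⟨c, hget⟩
  | false =>
    apply decide_eq_false
    rintro ⟨c', hc'⟩
    refine hxr c (x c') (hxS c') ?_
    have h1 := b.mem_cls.1 (hxc c)
    have h2 := b.mem_cls.1 (hxc c')
    refine Or.inr (Or.inr (Or.inr ⟨c', c, h2.1, h1.1, true, v, ?_, ?_⟩))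
    · rw [h2.2]; exact hc'
    · rw [h1.2]; exact hget

end Blow

end Pool.Agent.helper4.BI
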