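import Pool.Agent.helper64.LP.Defs

/-!
# Upper broadcast domination number and upper broadcast irredundance number (MP_7a9dcc_lc):
definitions used in the final statement
-/

set_option autoImplicit false

namespace Pool.Agent.helper4.BI

open Pool.Agent.helper64.LP

section
variable {V : Type} [Fintype V] [DecidableEq V] (G : SimpleGraph V)

/-- eccentricity of a vertex -/
noncomputable def ecc (v : V) : ℕ := Finset.univ.sup fun u => G.dist v u

/-- diameter -/
noncomputable def diam : ℕ := Finset.univ.sup fun v => ecc G v

/-- a broadcast: `f v ≤ diam G` and `f v ≤ ecc v` for all `v` -/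
def IsBroadcast (f : V → ℕ) : Prop := ∀ v, f v ≤ diam G ∧ f v ≤ ecc G v

/-- cost of a broadcast -/
def cost (f : V → ℕ) : ℕ := ∑ v, f v

/-- `u` hears `f` from `v`: `f v > 0` and `d(u, v) ≤ f v` -/
def Hears (f : V → ℕ) (u v : V) : Prop := 0 < f v ∧ G.dist u v ≤ f v

/-- `f` is dominating -/
def Dominating (f : V → ℕ) : Prop := ∀ u, ∃ v, Hears G f u v

/-- `f` is a minimal dominating broadcast -/
def MinimalDominating (f : V → ℕ) : Prop :=
  IsBroadcast G f ∧ Dominating G f ∧
    ∀ g : V → ℕ, IsBroadcast G g → (∀ v, g v ≤ f v) → g ≠ f → ¬ Dominating G g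

/-- the broadcast `f_v^-`: the value of `v` is lowered by one -/
def lower (f : V → ℕ) (v : V) : V → ℕ := Function.update f v (f v - 1)

/-- the private boundary of `v` -/
def PB (f : V → ℕ) (v : V) : Set V :=
  {u | G.dist u v ≤ f v ∧ ∀ x, ¬ Hears G (lower f v) u x}

/-- `f` is an irredundant broadcast -/
def Irredundant (f : V → ℕ) : Prop :=
  IsBroadcast G f ∧ ∀ v, 0 < f v → (PB G f v).Nonempty

/-- `Γ_b(G)`: the maximum cost of a minimal dominating broadcast -/
noncomputable def upperDomination : ℕ := sSup {c | ∃ f, MinimalDominating G f ∧ cost f = c}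

/-- `IR_b(G)`: the maximum cost of an irredundant broadcast -/
noncomputable def upperIrredundance : ℕ := sSup {c | ∃ f, Irredundant G f ∧ cost f = c}

end

/-- The words encoding instances `(G, k)` of the decision problem for a parameter `p`: is
`p(G) ≥ k`? An instance is given by an `n × n` matrix of bits, written row by row: the entries off
the diagonal are the adjacency matrix of `G`, and `k` is the number of ones on the diagonal. The
graph `G` is connected and has at least two vertices. The set consists of the yes-instances. -/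
def AtLeastLang (p : ∀ n : ℕ, SimpleGraph (Fin n) → ℕ) : Set (List Bool) :=
  {w | ∃ (n : ℕ) (G : SimpleGraph (Fin n)) (A : Fin n → Fin n → Bool) (k : ℕ),
    (∀ i j, i ≠ j → (A i j = true ↔ G.Adj i j)) ∧
    k = (Finset.univ.filter fun i => A i i = true).card ∧
    w = adjBits n A ∧ 2 ≤ n ∧ G.Connected ∧ k ≤ p n G}

end Pool.Agent.helper4.BI
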