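import Pool.Agent.helper4.BI.Comb
import Pool.Agent.helper19.LP.G
import Pool.Agent.helper42.LP.CookLevin
import Pool.Agent.helper22.LP.MatBits

/-!
# The adjacency matrix of the blown-up clause graph is given by a local pattern
-/

set_option autoImplicit false

namespace Pool.Agent.helper4.BI

open Pool.Agent.helper64.LP Finset

/-- kinds of vertices -/
abbrev Kd (U : UCNF) : Type := Fin 2 ⊕ (U.CL × Fin 4 × Fin 5)

section cells
variable (U : UCNF) (w : List Bool) (N B : ℕ)

/-- the clause of a vertex -/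
def cellOf (x : Fin N × Fin N) : Kd U → Option (U.Cla w N B)
  | .inl _ => none
  | .inr (c, s, _) =>
    if h : U.act c (upat w N B x) = true ∧ s.val < (U.lits c).length then some ⟨(c, x), h.1⟩
    else none

variable {U}

/-- the literal index of a vertex -/
def idxOf : Kd U → ℕ
  | .inl _ => 0
  | .inr (_, s, _) => s.val

variable {w N B}

theorem cellOf_eq_some {x : Fin N × Fin N} {K : Kd U} {c : U.Cla w N B} :
    cellOf U w N B x K = some c ↔
      x = c.1.2 ∧ ∃ s r, K = .inr (c.1.1, s, r) ∧ s.val < (U.lits c.1.1).length := by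
  rcases K with i | ⟨c0, s, r⟩
  · simp [cellOf]
  · unfold cellOf
    simp only
    split_ifs with h
    · rw [Option.some.injEq]
      constructor
      · rintro rfl
        exact ⟨rfl, s, r, rfl, h.2⟩
      · rintro ⟨rfl, s', r', h1, h2⟩
        rw [Sum.inr.injEq, Prod.mk.injEq, Prod.mk.injEq] at h1
        obtain ⟨h3, rfl, rfl⟩ := h1
        exact Subtype.ext (Prod.ext h3 rfl)
    · constructor
      · intro h'
        exact absurd h' (by simp)
      · rintro ⟨rfl, s', r', h1, h2⟩
        rw [Sum.inr.injEq, Prod.mk.injEq, Prod.mk.injEq] at h1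
        obtain ⟨h3, rfl, rfl⟩ := h1
        exfalso
        apply h
        rw [h3]
        exact ⟨c.2, h2⟩

variable {w' : List Bool} {N' B' : ℕ}

theorem cellOf_none_local {x : Fin N × Fin N} {x' : Fin N' × Fin N'} {K : Kd U}
    (h : upat w N B x = upat w' N' B' x') (h1 : cellOf U w N B x K = none) :
    cellOf U w' N' B' x' K = none := by
  rcases K with i | ⟨c0, s, r⟩
  · rfl
  · unfold cellOf at h1 ⊢
    simp only at h1 ⊢
    split_ifs with h2
    · rw [← h] at h2
      rw [dif_pos h2] at h1
      exact absurd h1 (by simp)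
    · rfl

theorem cellOf_some_local {x : Fin N × Fin N} {x' : Fin N' × Fin N'} {K : Kd U}
    (h : upat w N B x = upat w' N' B' x') {c : U.Cla w N B} (h1 : cellOf U w N B x K = some c) :
    ∃ c' : U.Cla w' N' B', cellOf U w' N' B' x' K = some c' ∧ c'.1 = (c.1.1, x') := by
  obtain ⟨rfl, s, r, h2, h3⟩ := cellOf_eq_some.1 h1
  have h4 : U.act c.1.1 (upat w' N' B' x') = true := by rw [← h]; exact c.2
  refine ⟨⟨(c.1.1, x'), h4⟩, ?_, rfl⟩
  rw [cellOf_eq_some]
  exact ⟨rfl, s, r, h2, h3⟩

/-- adjacency at the level of kinds and coordinates -/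
def RelK (U : UCNF) (w : List Bool) (N B : ℕ) (K₁ : Kd U) (x : Fin N × Fin N) (K₂ : Kd U)
    (y : Fin N × Fin N) : Prop :=
  cellOf U w N B x K₁ = none ∨ cellOf U w N B y K₂ = none ∨
    (cellOf U w N B x K₁ = cellOf U w N B y K₂ ∧ idxOf K₁ ≠ idxOf K₂) ∨
    ∃ c c', cellOf U w N B x K₁ = some c ∧ cellOf U w N B y K₂ = some c' ∧
      Blow.Conf ((U.ilits w N B c)[idxOf K₁]?) ((U.ilits w N B c')[idxOf K₂]?)

theorem resolve_val {n : ℕ} (o : Off) (x : Fin n) : (resolve o x).val =
    match o with
    | .same => x.val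
    | .next => if x.val + 1 < n then x.val + 1 else x.val
    | .zero => 0 := by
  cases o with
  | same => rfl
  | next =>
    unfold resolve
    simp only
    split_ifs <;> rfl
  | zero => rfl

theorem resolve2 {n n' : ℕ} {x y : Fin n} {x' y' : Fin n'} (o o' : Off)
    (h1 : x.val = y.val ↔ x'.val = y'.val) (h2 : y.val = x.val + 1 ↔ y'.val = x'.val + 1)
    (h3 : x.val = y.val + 1 ↔ x'.val = y'.val + 1) (h4 : x.val = 0 ↔ x'.val = 0)
    (h5 : y.val = 0 ↔ y'.val = 0) (h6 : x.val + 1 = n ↔ x'.val + 1 = n')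
    (h7 : y.val + 1 = n ↔ y'.val + 1 = n') (h : resolve o x = resolve o' y) :
    resolve o x' = resolve o' y' := by
  have e1 := congrArg Fin.val h
  rw [resolve_val, resolve_val] at e1
  apply Fin.ext
  rw [resolve_val, resolve_val]
  have a1 := x.isLt
  have a2 := y.isLt
  have a3 := x'.isLt
  have a4 := y'.isLt
  cases o <;> cases o' <;> simp only at e1 ⊢ <;> (try split_ifs at e1 ⊢) <;> omega

theorem resolve2_t {x y : Fin N × Fin N} {x' y' : Fin N' × Fin N'}
    (hP : bpat w N B x y = bpat w' N' B' x' y') (o o' : Off)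
    (h : resolve o x.1 = resolve o' y.1) : resolve o x'.1 = resolve o' y'.1 := by
  have h1 := congrArg BPat.tt hP
  have h2 := congrArg BPat.tn hP
  have h3 := congrArg BPat.tp hP
  have h4 := congrArg (fun P => P.p.t0) hP
  have h5 := congrArg (fun P => P.p'.t0) hP
  have h6 := congrArg (fun P => P.p.tl) hP
  have h7 := congrArg (fun P => P.p'.tl) hP
  simp only [bpat, upat, decide_eq_decide] at h1 h2 h3 h4 h5 h6 h7
  exact resolve2 o o' h1 h2 h3 h4 h5 h6 h7 h

theorem resolve2_j {x y : Fin N × Fin N} {x' y' : Fin N' × Fin N'}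
    (hP : bpat w N B x y = bpat w' N' B' x' y') (o o' : Off)
    (h : resolve o x.2 = resolve o' y.2) : resolve o x'.2 = resolve o' y'.2 := by
  have h1 := congrArg BPat.jj hP
  have h2 := congrArg BPat.jn hP
  have h3 := congrArg BPat.jp hP
  have h4 := congrArg (fun P => P.p.j0) hP
  have h5 := congrArg (fun P => P.p'.j0) hP
  have h6 := congrArg (fun P => P.p.jl) hP
  have h7 := congrArg (fun P => P.p'.jl) hP
  simp only [bpat, upat, decide_eq_decide] at h1 h2 h3 h4 h5 h6 h7
  exact resolve2 o o' h1 h2 h3 h4 h5 h6 h7 h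

theorem ilits_get {c : U.Cla w N B} {s : ℕ} {z : Bool × U.Var N} :
    (U.ilits w N B c)[s]? = some z ↔ ∃ l, (U.lits c.1.1)[s]? = some l ∧
      (l.sgn, l.var, resolve l.ot c.1.2.1, resolve l.oj c.1.2.2) = z := by
  unfold UCNF.ilits
  rw [List.getElem?_map, Option.map_eq_some_iff]

/-- adjacency depends on the local pattern only -/
theorem relK_local {K₁ K₂ : Kd U} {x y : Fin N × Fin N} {x' y' : Fin N' × Fin N'}
    (hP : bpat w N B x y = bpat w' N' B' x' y') (h : RelK U w N B K₁ x K₂ y) :
    RelK U w' N' B' K₁ x' K₂ y' := by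
  have hp1 : upat w N B x = upat w' N' B' x' := congrArg BPat.p hP
  have hp2 : upat w N B y = upat w' N' B' y' := congrArg BPat.p' hP
  rcases h with h | h | ⟨h1, h2⟩ | ⟨c, c', h1, h2, h3⟩
  · exact Or.inl (cellOf_none_local hp1 h)
  · exact Or.inr (Or.inl (cellOf_none_local hp2 h))
  · rcases hc : cellOf U w N B x K₁ with _ | c
    · exact Or.inl (cellOf_none_local hp1 hc)
    · rw [hc] at h1
      obtain ⟨c1, hc1, hc1'⟩ := cellOf_some_local hp1 hc
      obtain ⟨c2, hc2, hc2'⟩ := cellOf_some_local hp2 h1.symm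
      refine Or.inr (Or.inr (Or.inl ⟨?_, h2⟩))
      rw [hc1, hc2]
      have e1 := (cellOf_eq_some.1 hc).1
      have e2 := (cellOf_eq_some.1 h1.symm).1
      have e3 : x' = y' := ModG.same_local hP (e1.trans e2.symm)
      congr 1
      apply Subtype.ext
      rw [hc1', hc2', e3]
  · obtain ⟨c1, hc1, hc1'⟩ := cellOf_some_local hp1 h1
    obtain ⟨c2, hc2, hc2'⟩ := cellOf_some_local hp2 h2
    have e1 := (cellOf_eq_some.1 h1).1
    have e2 := (cellOf_eq_some.1 h2).1
    obtain ⟨s, v, h4, h5⟩ := h3
    obtain ⟨l, hl1, hl2⟩ := ilits_get.1 h4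
    obtain ⟨l', hl1', hl2'⟩ := ilits_get.1 h5
    refine Or.inr (Or.inr (Or.inr ⟨c1, c2, hc1, hc2, s, (l.var, resolve l.ot x'.1,
      resolve l.oj x'.2), ?_, ?_⟩))
    · rw [ilits_get, hc1']
      refine ⟨l, hl1, ?_⟩
      rw [Prod.mk.injEq] at hl2
      rw [hl2.1]
    · rw [ilits_get, hc2']
      refine ⟨l', hl1', ?_⟩
      rw [Prod.mk.injEq] at hl2 hl2'
      have e3 := hl2.2.trans hl2'.2.symm
      rw [Prod.mk.injEq, Prod.mk.injEq, ← e1, ← e2] at e3
      rw [hl2'.1, e3.1, resolve2_t hP _ _ e3.2.1, resolve2_j hP _ _ e3.2.2]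

end cells

/-! ### from lists to `Fin n` -/

section lists

/-- transport of the matrix of a list to `Fin L.length` -/
theorem bits_eq {W : Type} (L : List W) (hL : L.Nodup) (hm : ∀ x, x ∈ L) [DecidableEq W]
    (A : W → W → Bool) :
    (L.flatMap fun x => L.map fun y => A x y) =
      adjBits L.length fun i j => A (List.Nodup.getEquivOfForallMemList L hL hm i)
        (List.Nodup.getEquivOfForallMemList L hL hm j) := by
  set e : Fin L.length ≃ W := List.Nodup.getEquivOfForallMemList L hL hm
  have he : ∀ i, e i = L.get i := fun i => rfl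
  unfold adjBits
  have h1 : L = (List.finRange L.length).map e := by
    conv_lhs => rw [← List.map_get_finRange L]
    exact List.map_congr_left fun i _ => (he i).symm
  conv_lhs => rw [h1]
  rw [List.flatMap_map]
  congr 1
  funext i
  rw [List.map_map]
  rfl

/-- membership of a matrix of the right shape -/
theorem mem_atLeast {par : ∀ n : ℕ, SimpleGraph (Fin n) → ℕ} {n : ℕ} (G : SimpleGraph (Fin n))
    (A : Fin n → Fin n → Bool) (hA : ∀ i j, i ≠ j → (A i j = true ↔ G.Adj i j)) (hn : 2 ≤ n)
    (hG : G.Connected) :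
    adjBits n A ∈ AtLeastLang par ↔
      (Finset.univ.filter fun i => A i i = true).card ≤ par n G := by
  constructor
  · rintro ⟨n', G', A', k, h1, h2, h3, _, _, h6⟩
    have hn' : n' = n := by
      have := congrArg List.length h3
      rw [ModG.length_adjBits, ModG.length_adjBits] at this
      exact (Nat.mul_self_inj.1 this).symm
    subst hn'
    have h4 := ModG.adjBits_inj h3
    subst h4
    have h5 : G' = G := by
      ext i j
      by_cases hij : i = j
      · subst hij; simp
      · rw [← h1 i j hij, hA i j hij]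
    rw [← h5, ← h2]
    exact h6
  · intro h
    exact ⟨n, G, A, _, hA, rfl, rfl, hn, hG, h⟩

end lists

/-! ### the two parameters of a blown-up clause graph -/

section pars
variable {X C W : Type} [Fintype X] [Fintype C] [DecidableEq X] [DecidableEq C] (b : Blow X C W)

theorem Blow.domination_iff (hC : Nonempty C) :
    5 * Fintype.card C ≤ upperDomination b.graph ↔ b.Sat := by
  have hpos : 0 < Fintype.card C := Fintype.card_pos_iff.2 hC
  have hB : BddAbove {c | ∃ f, MinimalDominating b.graph f ∧ cost f = c} :=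
    bdd_cost fun f hf => hf.1
  unfold upperDomination
  constructor
  · intro h
    have hne : {c | ∃ f, MinimalDominating b.graph f ∧ cost f = c}.Nonempty := by
      by_contra hcon
      rw [Set.not_nonempty_iff_eq_empty] at hcon
      rw [hcon, csSup_empty] at h
      simp only [Nat.bot_eq_zero] at h
      omega
    obtain ⟨f, hf, hc⟩ := Nat.sSup_mem hne hB
    exact b.sat_of_irredundant hC hf.irredundant (by rw [hc]; exact h)
  · intro h
    obtain ⟨f, hf, hc⟩ := b.exists_minimal hC h
    exact le_csSup hB ⟨f, hf, hc⟩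

theorem Blow.irredundance_iff (hC : Nonempty C) :
    5 * Fintype.card C ≤ upperIrredundance b.graph ↔ b.Sat := by
  have hpos : 0 < Fintype.card C := Fintype.card_pos_iff.2 hC
  have hB : BddAbove {c | ∃ f, Irredundant b.graph f ∧ cost f = c} :=
    bdd_cost fun f hf => hf.1
  unfold upperIrredundance
  constructor
  · intro h
    have hne : {c | ∃ f, Irredundant b.graph f ∧ cost f = c}.Nonempty := by
      by_contra hcon
      rw [Set.not_nonempty_iff_eq_empty] at hcon
      rw [hcon, csSup_empty] at h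
      simp only [Nat.bot_eq_zero] at h
      omega
    obtain ⟨f, hf, hc⟩ := Nat.sSup_mem hne hB
    exact b.sat_of_irredundant hC hf (by rw [hc]; exact h)
  · intro h
    obtain ⟨f, hf, hc⟩ := b.exists_minimal hC h
    exact le_csSup hB ⟨f, hf.irredundant, hc⟩

end pars

/-! ### the matrix -/

section matrix

open Classical in
/-- the local pattern -/
noncomputable def beta (U : UCNF) {p : ℕ} (κ : Kd U ≃ Fin p) (a a' : Fin p) (P : BPat) : Bool :=
  decide ((a = a' ∧ P.tt = true ∧ P.jj = true ∧
      ∃ c r, κ.symm a = .inr (c, 0, r) ∧ U.act c P.p = true) ∨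
    (¬ (a = a' ∧ P.tt = true ∧ P.jj = true) ∧
      ∃ (w : List Bool) (N B : ℕ) (x y : Fin N × Fin N), bpat w N B x y = P ∧
        RelK U w N B (κ.symm a) x (κ.symm a') y))

variable {U : UCNF} {w : List Bool} {N B p : ℕ} (κ : Kd U ≃ Fin p)

open Classical in
theorem beta_diag {a : Fin p} {x : Fin N × Fin N} :
    beta U κ a a (bpat w N B x x) = true ↔
      ∃ c r, κ.symm a = .inr (c, 0, r) ∧ U.act c (upat w N B x) = true := by
  unfold beta
  rw [decide_eq_true_eq]
  have h1 : (bpat w N B x x).tt = true := by simp [bpat]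
  have h2 : (bpat w N B x x).jj = true := by simp [bpat]
  have h3 : (bpat w N B x x).p = upat w N B x := rfl
  rw [h1, h2, h3]
  simp

open Classical in
theorem beta_off {a a' : Fin p} {x y : Fin N × Fin N} (h : ¬ (a = a' ∧ x = y)) :
    beta U κ a a' (bpat w N B x y) = true ↔ RelK U w N B (κ.symm a) x (κ.symm a') y := by
  unfold beta
  rw [decide_eq_true_eq]
  have h1 : ¬ (a = a' ∧ (bpat w N B x y).tt = true ∧ (bpat w N B x y).jj = true) := by
    rintro ⟨h1, h2, h3⟩
    simp only [bpat, decide_eq_true_eq] at h2 h3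
    exact h ⟨h1, Prod.ext (Fin.ext h2) (Fin.ext h3)⟩
  constructor
  · rintro (⟨h2, h3, h4, -⟩ | ⟨-, w', N', B', x', y', h2, h3⟩)
    · exact absurd ⟨h2, h3, h4⟩ h1
    · exact relK_local h2 h3
  · intro h2
    exact Or.inr ⟨h1, w, N, B, x, y, rfl, h2⟩

/-- the enumeration of the vertices -/
noncomputable def enum (p N : ℕ) : Fin (allVerts p N).length ≃ Fin N × Fin N × Fin p :=
  List.Nodup.getEquivOfForallMemList (allVerts p N) (ModG.nodup_allVerts p N)
    (fun x => ModG.mem_allVerts x)

theorem matBits_eq_adjBits (β : Fin p → Fin p → BPat → Bool) :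
    matBits p N B w β = adjBits (allVerts p N).length fun i j =>
      β (enum p N i).2.2 (enum p N j).2.2 (bpat w N B ((enum p N i).1, (enum p N i).2.1)
        ((enum p N j).1, (enum p N j).2.1)) := by
  unfold matBits
  exact bits_eq (allVerts p N) (ModG.nodup_allVerts p N) (fun x => ModG.mem_allVerts x)
    fun x y => β x.2.2 y.2.2 (bpat w N B (x.1, x.2.1) (y.1, y.2.1))

theorem card_filter_eq {n : ℕ} {W T : Type} [Fintype T] (e : Fin n ≃ W) (g : T → W)
    (hg : Function.Injective g) (P : Fin n → Prop) [DecidablePred P]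
    (h : ∀ i, P i ↔ ∃ t, g t = e i) : (univ.filter P).card = Fintype.card T := by
  have h1 : univ.filter P = univ.image fun t => e.symm (g t) := by
    ext i
    simp only [mem_filter, mem_univ, true_and, mem_image]
    rw [h i]
    constructor
    · rintro ⟨t, ht⟩
      exact ⟨t, by rw [ht, e.symm_apply_apply]⟩
    · rintro ⟨t, ht⟩
      exact ⟨t, by rw [← ht, e.apply_symm_apply]⟩
  have h2 : Function.Injective fun t => e.symm (g t) := e.symm.injective.comp hg
  rw [h1, Finset.card_image_of_injective _ h2, Finset.card_univ]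

/-- the blown-up clause graph of an instance -/
noncomputable def blow [Fintype (U.Cla w N B)] [DecidableEq (U.Cla w N B)] (hN : 0 < N)
    (hg : GoodLits (U.ilits w N B)) :
    Blow (Fin (allVerts p N).length) (U.Cla w N B) (U.Var N) where
  cell i := cellOf U w N B ((enum p N i).1, (enum p N i).2.1) (κ.symm (enum p N i).2.2)
  idx i := idxOf (κ.symm (enum p N i).2.2)
  lits := U.ilits w N B
  hlen c := (hg c).2.2
  hidx i c h := by
    obtain ⟨-, s, r, h1, h2⟩ := cellOf_eq_some.1 h
    rw [h1]
    unfold UCNF.ilits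
    rw [List.length_map]
    exact h2
  hcard c s hs := by
    have hs4 : s < 4 := lt_of_lt_of_le hs (hg c).2.2
    have hs' : s < (U.lits c.1.1).length := by
      unfold UCNF.ilits at hs
      rwa [List.length_map] at hs
    have h5 : Fintype.card (Fin 5) = 5 := Fintype.card_fin 5
    rw [← h5]
    refine card_filter_eq (enum p N) (fun r : Fin 5 => (c.1.2.1, c.1.2.2,
      κ (.inr (c.1.1, (⟨s, hs4⟩ : Fin 4), r)))) ?_ _ ?_
    · intro r r' h
      simp only [Prod.mk.injEq, true_and] at h
      have h1 := κ.injective h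
      rw [Sum.inr.injEq, Prod.mk.injEq, Prod.mk.injEq] at h1
      exact h1.2.2
    · intro i
      rw [cellOf_eq_some]
      constructor
      · rintro ⟨⟨h1, s', r, h2, h3⟩, h4⟩
        refine ⟨r, ?_⟩
        rw [h2] at h4
        have h6 : s' = (⟨s, hs4⟩ : Fin 4) := Fin.ext h4
        rw [← h6, ← h2, κ.apply_symm_apply, ← h1]
      · rintro ⟨r, h⟩
        rw [← h]
        refine ⟨⟨rfl, ⟨s, hs4⟩, r, κ.symm_apply_apply _, hs'⟩, ?_⟩
        simp only [κ.symm_apply_apply]
        rfl
  hu := by
    refine ⟨(enum p N).symm (⟨0, hN⟩, ⟨0, hN⟩, κ (.inl 0)),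
      (enum p N).symm (⟨0, hN⟩, ⟨0, hN⟩, κ (.inl 1)), ?_, ?_, ?_⟩
    · intro h
      have h1 := (enum p N).symm.injective h
      simp only [Prod.mk.injEq, true_and] at h1
      have h2 := κ.injective h1
      rw [Sum.inl.injEq] at h2
      exact absurd h2 (by decide)
    · simp [cellOf]
    · simp [cellOf]

theorem mem_iff {par : ∀ n : ℕ, SimpleGraph (Fin n) → ℕ}
    (hpar : ∀ (n : ℕ) (C W : Type) [Fintype C] [DecidableEq C] (b : Blow (Fin n) C W),
      Nonempty C → (5 * Fintype.card C ≤ par n b.graph ↔ b.Sat))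
    (hN : 0 < N) (hg : GoodLits (U.ilits w N B)) :
    matBits p N B w (beta U κ) ∈ AtLeastLang par ↔ U.Sat w N B := by
  classical
  have := U.finCL
  have : Finite (U.Cla w N B) := inferInstance
  have : Fintype (U.Cla w N B) := Fintype.ofFinite _
  set b := blow κ hN hg with hb
  rw [matBits_eq_adjBits]
  have hn : 2 ≤ (allVerts p N).length := by
    obtain ⟨x, y, hxy, -⟩ := b.hu
    have h1 := x.isLt
    have h2 := y.isLt
    have h3 : x.val ≠ y.val := fun h => hxy (Fin.ext h)
    omega
  rw [mem_atLeast b.graph _ ?_ hn b.connected]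
  · have hcard : (Finset.univ.filter fun i : Fin (allVerts p N).length =>
        beta U κ (enum p N i).2.2 (enum p N i).2.2 (bpat w N B ((enum p N i).1, (enum p N i).2.1)
          ((enum p N i).1, (enum p N i).2.1)) = true).card = 5 * Fintype.card (U.Cla w N B) := by
      rw [card_filter_eq (enum p N) (fun t : U.Cla w N B × Fin 5 => (t.1.1.2.1, t.1.1.2.2,
        κ (.inr (t.1.1.1, (0 : Fin 4), t.2)))) ?_ _ ?_]
      · rw [Fintype.card_prod, Fintype.card_fin, mul_comm]
      · rintro ⟨c, r⟩ ⟨c', r'⟩ h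
        simp only [Prod.mk.injEq] at h
        have h1 := κ.injective h.2.2
        rw [Sum.inr.injEq, Prod.mk.injEq, Prod.mk.injEq] at h1
        have h2 : c = c' := Subtype.ext (Prod.ext h1.1 (Prod.ext h.1 h.2.1))
        rw [h2, h1.2.2]
      · intro i
        rw [beta_diag]
        constructor
        · rintro ⟨c, r, h1, h2⟩
          refine ⟨(⟨(c, ((enum p N i).1, (enum p N i).2.1)), h2⟩, r), ?_⟩
          simp only
          rw [← h1, κ.apply_symm_apply]
        · rintro ⟨⟨c, r⟩, h⟩
          rw [← h]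
          simp only [κ.symm_apply_apply]
          exact ⟨c.1.1, r, rfl, c.2⟩
    rw [hcard]
    by_cases hC : Nonempty (U.Cla w N B)
    · exact hpar _ _ _ b hC
    · rw [not_nonempty_iff] at hC
      rw [Fintype.card_eq_zero]
      simp only [mul_zero, Nat.zero_le, true_iff]
      exact ⟨fun _ => true, fun c => hC.elim c⟩
  · intro i j hij
    rw [beta_off]
    · constructor
      · intro h
        exact ⟨hij, h⟩
      · rintro ⟨-, h⟩
        exact h
    · rintro ⟨h1, h2⟩
      apply hij
      apply (enum p N).injective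
      rw [Prod.mk.injEq] at h2
      exact Prod.ext h2.1 (Prod.ext h2.2 h1)

end matrix

theorem nphard {par : ∀ n : ℕ, SimpleGraph (Fin n) → ℕ}
    (hpar : ∀ (n : ℕ) (C W : Type) [Fintype C] [DecidableEq C] (b : Blow (Fin n) C W),
      Nonempty C → (5 * Fintype.card C ≤ par n b.graph ↔ b.Sat)) : NPHard (AtLeastLang par) := by
  intro A hA
  obtain ⟨U, a, b, c, d, h⟩ := cook_levin A hA
  have := U.finCL
  obtain ⟨p, ⟨κ⟩⟩ := Finite.exists_equiv_fin (Kd U)
  refine ⟨_, matBits_polyTime p a b c d (beta U κ), fun w => ?_⟩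
  obtain ⟨hN, hg, hw⟩ := h w
  rw [hw, mem_iff κ hpar hN hg]

end Pool.Agent.helper4.BI
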